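import Pool.Agent.helper36.PT.Spec

/-!
# Row pt:DYA
-/

set_option autoImplicit false

namespace Pool.Agent.PT

open Finset Pool.Agent.helper71.AA

/-- Two sums of a function which vanishes off the intersection of the two sets. -/
theorem DYA_eq {s t : Finset ℕ} {F : ℕ → ℂ} (h1 : ∀ d ∈ s, d ∉ t → F d = 0)
    (h2 : ∀ d ∈ t, d ∉ s → F d = 0) : ∑ d ∈ s, F d = ∑ d ∈ t, F d := by
  have e1 : ∑ d ∈ s ∩ t, F d = ∑ d ∈ s, F d :=
    sum_subset inter_subset_left fun d hd hn => h1 d hd fun ht => hn (mem_inter.2 ⟨hd, ht⟩)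
  have e2 : ∑ d ∈ s ∩ t, F d = ∑ d ∈ t, F d :=
    sum_subset inter_subset_right fun d hd hn => h2 d hd fun hs => hn (mem_inter.2 ⟨hs, hd⟩)
  rw [← e1, e2]

/-- Dyadic decomposition. -/
theorem DYA_dy (F : ℕ → ℂ) (K : ℕ) :
    ∑ d ∈ Ico 1 (2 ^ K), F d = ∑ i ∈ range K, ∑ d ∈ Ico (2 ^ i) (2 * 2 ^ i), F d := by
  induction K with
  | zero => simp
  | succ K ih =>
    rw [sum_range_succ, ← ih]
    have h : 2 * 2 ^ K = 2 ^ (K + 1) := by ring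
    rw [h, sum_Ico_consecutive F Nat.one_le_two_pow (Nat.pow_le_pow_right (by norm_num) (by omega))]

/-- Dyadic decomposition in three variables. -/
theorem DYA_dy3 (F : ℕ → ℕ → ℕ → ℂ) (K : ℕ) :
    ∑ a ∈ Ico 1 (2 ^ K), ∑ b ∈ Ico 1 (2 ^ K), ∑ e ∈ Ico 1 (2 ^ K), F a b e =
      ∑ i ∈ range K, ∑ j ∈ range K, ∑ k ∈ range K, ∑ a ∈ Ico (2 ^ i) (2 * 2 ^ i),
        ∑ b ∈ Ico (2 ^ j) (2 * 2 ^ j), ∑ e ∈ Ico (2 ^ k) (2 * 2 ^ k), F a b e := by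
  rw [DYA_dy]
  refine sum_congr rfl fun i _ => ?_
  have h : ∀ a, ∑ b ∈ Ico 1 (2 ^ K), ∑ e ∈ Ico 1 (2 ^ K), F a b e =
      ∑ j ∈ range K, ∑ k ∈ range K, ∑ b ∈ Ico (2 ^ j) (2 * 2 ^ j),
        ∑ e ∈ Ico (2 ^ k) (2 * 2 ^ k), F a b e := by
    intro a
    rw [DYA_dy]
    refine sum_congr rfl fun j _ => ?_
    have h2 : ∀ b, ∑ e ∈ Ico 1 (2 ^ K), F a b e =
        ∑ k ∈ range K, ∑ e ∈ Ico (2 ^ k) (2 * 2 ^ k), F a b e := fun b => DYA_dy _ K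
    simp only [h2]
    rw [sum_comm]
  simp only [h]
  rw [sum_comm]
  refine sum_congr rfl fun j _ => ?_
  rw [sum_comm]

/-- The final estimate: a power of the logarithm against a small power. -/
theorem DYA_log (C : ℝ) : ∃ X₀ : ℝ, ∀ X : ℝ, X₀ ≤ X →
    (2 * Real.log X + 2) ^ 3 * C ≤ X ^ (0.0001 : ℝ) := by
  have h1 : Filter.Tendsto (fun x : ℝ => Real.log x ^ (3 : ℝ) / x ^ (0.0001 : ℝ)) Filter.atTop
      (nhds 0) := (isLittleO_log_rpow_rpow_atTop 3 (by norm_num)).tendsto_div_nhds_zero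
  have h2 : ∀ᶠ x : ℝ in Filter.atTop, Real.log x ^ (3 : ℝ) / x ^ (0.0001 : ℝ) <
      1 / (64 * (|C| + 1)) := h1.eventually_lt_const (by positivity)
  obtain ⟨x0, hx0⟩ := Filter.eventually_atTop.1 h2
  refine ⟨max x0 (Real.exp 1), fun X hX => ?_⟩
  have hX0 := hx0 X (le_trans (le_max_left _ _) hX)
  have hXe : Real.exp 1 ≤ X := le_trans (le_max_right _ _) hX
  have hXp : 0 < X := lt_of_lt_of_le (Real.exp_pos 1) hXe
  have hl : 1 ≤ Real.log X := by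
    rw [Real.le_log_iff_exp_le hXp]; exact hXe
  have hp : 0 < X ^ (0.0001 : ℝ) := Real.rpow_pos_of_pos hXp _
  have hl3 : Real.log X ^ (3 : ℝ) = Real.log X ^ 3 := by
    rw [show (3 : ℝ) = ((3 : ℕ) : ℝ) by norm_num, Real.rpow_natCast]
  rw [hl3, div_lt_div_iff₀ hp (by positivity)] at hX0
  have h3 : (2 * Real.log X + 2) ^ 3 ≤ 64 * Real.log X ^ 3 := by
    have : 2 * Real.log X + 2 ≤ 4 * Real.log X := by linarith
    calc (2 * Real.log X + 2) ^ 3 ≤ (4 * Real.log X) ^ 3 :=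
          pow_le_pow_left₀ (by linarith) this 3
      _ = _ := by ring
  have h4 : (2 * Real.log X + 2) ^ 3 * C ≤ (2 * Real.log X + 2) ^ 3 * (|C| + 1) :=
    mul_le_mul_of_nonneg_left (by linarith [le_abs_self C]) (by positivity)
  have h5 : (2 * Real.log X + 2) ^ 3 * (|C| + 1) ≤ 64 * Real.log X ^ 3 * (|C| + 1) :=
    mul_le_mul_of_nonneg_right h3 (by positivity)
  have h6 : 64 * Real.log X ^ 3 * (|C| + 1) = Real.log X ^ 3 * (64 * (|C| + 1)) := by ring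
  linarith

/-- The bound for a block. -/
theorem DYA_num {X C A B E P V : ℝ} (hX : 1 ≤ X) (hC : 0 < C) (hA : 1 ≤ A) (hB : 1 ≤ B)
    (hE : 1 ≤ E) (hA' : A ≤ X ^ (0.4451 : ℝ)) (hB' : B ≤ X ^ (0.108 : ℝ))
    (hE' : E ≤ X ^ (0.5531 : ℝ)) (_hP0 : 0 ≤ P) (hP : P ≤ X ^ (0.0008 : ℝ)) (_hV0 : 0 ≤ V)
    (hV : V ^ 2 ≤ C * X ^ (0.0002 : ℝ) * (2 * X * A * E + P *
      (A ^ (5 / 2 : ℝ) * B ^ 3 * E + A ^ (3 / 2 : ℝ) * B ^ (3 / 2 : ℝ) * E ^ 2))) :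
    V ≤ 2 * Real.sqrt C * X ^ (0.9992 : ℝ) := by
  have hX0 : 0 < X := by linarith
  have hA0 : 0 ≤ A := by linarith
  have hB0 : 0 ≤ B := by linarith
  have hE0 : 0 ≤ E := by linarith
  have pw : ∀ (u v : ℝ), (X ^ u) ^ v = X ^ (u * v) := fun u v => (Real.rpow_mul hX0.le u v).symm
  have mono : ∀ {u v : ℝ}, u ≤ v → X ^ u ≤ X ^ v := fun h => Real.rpow_le_rpow_of_exponent_le hX h
  have t1 : 2 * X * A * E ≤ 2 * X ^ (1.9982 : ℝ) := by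
    calc 2 * X * A * E ≤ 2 * X * X ^ (0.4451 : ℝ) * X ^ (0.5531 : ℝ) := by gcongr
      _ = 2 * (X ^ (1 : ℝ) * X ^ (0.4451 : ℝ) * X ^ (0.5531 : ℝ)) := by rw [Real.rpow_one]; ring
      _ = 2 * X ^ (1.9982 : ℝ) := by
        rw [← Real.rpow_add hX0, ← Real.rpow_add hX0]; norm_num
  have a52 : A ^ (5 / 2 : ℝ) ≤ X ^ (1.11275 : ℝ) := by
    calc A ^ (5 / 2 : ℝ) ≤ (X ^ (0.4451 : ℝ)) ^ (5 / 2 : ℝ) :=
          Real.rpow_le_rpow hA0 hA' (by norm_num)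
      _ = _ := by rw [pw]; norm_num
  have a32 : A ^ (3 / 2 : ℝ) ≤ X ^ (0.66765 : ℝ) := by
    calc A ^ (3 / 2 : ℝ) ≤ (X ^ (0.4451 : ℝ)) ^ (3 / 2 : ℝ) :=
          Real.rpow_le_rpow hA0 hA' (by norm_num)
      _ = _ := by rw [pw]; norm_num
  have b3 : B ^ 3 ≤ X ^ (0.324 : ℝ) := by
    calc B ^ 3 ≤ (X ^ (0.108 : ℝ)) ^ 3 := pow_le_pow_left₀ hB0 hB' 3
      _ = (X ^ (0.108 : ℝ)) ^ (3 : ℝ) := by
        rw [show (3 : ℝ) = ((3 : ℕ) : ℝ) by norm_num, Real.rpow_natCast]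
      _ = _ := by rw [pw]; norm_num
  have b32 : B ^ (3 / 2 : ℝ) ≤ X ^ (0.162 : ℝ) := by
    calc B ^ (3 / 2 : ℝ) ≤ (X ^ (0.108 : ℝ)) ^ (3 / 2 : ℝ) :=
          Real.rpow_le_rpow hB0 hB' (by norm_num)
      _ = _ := by rw [pw]; norm_num
  have e2 : E ^ 2 ≤ X ^ (1.1062 : ℝ) := by
    calc E ^ 2 ≤ (X ^ (0.5531 : ℝ)) ^ 2 := pow_le_pow_left₀ hE0 hE' 2
      _ = (X ^ (0.5531 : ℝ)) ^ (2 : ℝ) := by
        rw [show (2 : ℝ) = ((2 : ℕ) : ℝ) by norm_num, Real.rpow_natCast]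
      _ = _ := by rw [pw]; norm_num
  have hA52 : 0 ≤ A ^ (5 / 2 : ℝ) := Real.rpow_nonneg hA0 _
  have hA32 : 0 ≤ A ^ (3 / 2 : ℝ) := Real.rpow_nonneg hA0 _
  have hB32 : 0 ≤ B ^ (3 / 2 : ℝ) := Real.rpow_nonneg hB0 _
  have t2 : P * (A ^ (5 / 2 : ℝ) * B ^ 3 * E) ≤ X ^ (1.9982 : ℝ) := by
    calc P * (A ^ (5 / 2 : ℝ) * B ^ 3 * E)
        ≤ X ^ (0.0008 : ℝ) * (X ^ (1.11275 : ℝ) * X ^ (0.324 : ℝ) * X ^ (0.5531 : ℝ)) := by
          gcongr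
      _ = X ^ (0.0008 + (1.11275 + 0.324 + 0.5531) : ℝ) := by
        rw [Real.rpow_add hX0, Real.rpow_add hX0, Real.rpow_add hX0]
      _ ≤ _ := mono (by norm_num)
  have t3 : P * (A ^ (3 / 2 : ℝ) * B ^ (3 / 2 : ℝ) * E ^ 2) ≤ X ^ (1.9982 : ℝ) := by
    calc P * (A ^ (3 / 2 : ℝ) * B ^ (3 / 2 : ℝ) * E ^ 2)
        ≤ X ^ (0.0008 : ℝ) * (X ^ (0.66765 : ℝ) * X ^ (0.162 : ℝ) * X ^ (1.1062 : ℝ)) := by
          gcongr
      _ = X ^ (0.0008 + (0.66765 + 0.162 + 1.1062) : ℝ) := by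
        rw [Real.rpow_add hX0, Real.rpow_add hX0, Real.rpow_add hX0]
      _ ≤ _ := mono (by norm_num)
  have hs : (2 * Real.sqrt C * X ^ (0.9992 : ℝ)) ^ 2 = 4 * (C * (X ^ (0.0002 : ℝ) *
      X ^ (1.9982 : ℝ))) := by
    have h1 : (X ^ (0.9992 : ℝ)) ^ 2 = X ^ (0.0002 : ℝ) * X ^ (1.9982 : ℝ) := by
      rw [← Real.rpow_add hX0, ← Real.rpow_natCast, ← Real.rpow_mul hX0.le]
      norm_num
    rw [mul_pow, mul_pow, Real.sq_sqrt hC.le, h1]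
    ring
  have hfin : V ^ 2 ≤ (2 * Real.sqrt C * X ^ (0.9992 : ℝ)) ^ 2 := by
    rw [hs]
    refine hV.trans ?_
    have hc : 0 ≤ C * X ^ (0.0002 : ℝ) := by positivity
    calc C * X ^ (0.0002 : ℝ) * (2 * X * A * E + P *
      (A ^ (5 / 2 : ℝ) * B ^ 3 * E + A ^ (3 / 2 : ℝ) * B ^ (3 / 2 : ℝ) * E ^ 2))
        ≤ C * X ^ (0.0002 : ℝ) * (4 * X ^ (1.9982 : ℝ)) := by
          refine mul_le_mul_of_nonneg_left ?_ hc
          linarith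
      _ = _ := by ring
  exact le_of_sq_le_sq hfin (by positivity)

theorem DYA (h1 : BLK_stmt) : DYA_stmt := by
  intro W hW
  obtain ⟨C, hC, hblk⟩ := h1 (0.0002 : ℝ) (by norm_num) W hW
  obtain ⟨X0, hX0⟩ := DYA_log (2 * Real.sqrt C)
  refine ⟨max X0 1, fun X hX p q hp hq hpq hpW hqW hpX hqX a₀ L γ β c hγ hβ hγs hβs hCg => ?_⟩
  have hX1 : 1 ≤ X := le_trans (le_max_right _ _) hX
  have hXp : 0 < X := by linarith
  have hlog : 0 ≤ Real.log X := Real.log_nonneg hX1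
  -- the truncated coefficients
  set γ' : ℕ → ℕ → ℝ := fun a b => if a ≤ L ∧ b ≤ L then γ a b else 0 with hγ'
  set β' : ℕ → ℝ := fun e => if e ≤ L then β e else 0 with hβ'
  have hγ'0 : ∀ a b, γ' a b ≠ 0 → γ a b ≠ 0 ∧ a ≤ L ∧ b ≤ L := by
    intro a b h
    simp only [hγ'] at h
    split_ifs at h with h2
    · exact ⟨h, h2⟩
    · exact absurd rfl h
  have hβ'0 : ∀ e, β' e ≠ 0 → β e ≠ 0 ∧ e ≤ L := by
    intro e h
    simp only [hβ'] at h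
    split_ifs at h with h2
    · exact ⟨h, h2⟩
    · exact absurd rfl h
  set F : ℕ → ℕ → ℕ → ℂ := fun a b e => if e.Coprime (a * b) then
    ((γ' a b * β' e : ℝ) : ℂ) * Fr (2 * X) (W * (a * b) * e) (c a b e) else 0 with hF
  have hF0 : ∀ a b e, γ' a b = 0 ∨ β' e = 0 → F a b e = 0 := by
    intro a b e h
    simp only [hF]
    rcases h with h | h <;> simp [h]
  have hpos : ∀ a b, γ a b ≠ 0 → 1 ≤ a ∧ 1 ≤ b := by
    intro a b h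
    have h2 := (hγs a b h).1.ne_zero
    constructor
    · rcases Nat.eq_zero_or_pos a with h3 | h3
      · exact absurd (by rw [h3, zero_mul]) h2
      · exact h3
    · rcases Nat.eq_zero_or_pos b with h3 | h3
      · exact absurd (by rw [h3, mul_zero]) h2
      · exact h3
  set K : ℕ := Nat.log 2 ⌊X⌋₊ + 1 with hK
  have hKX : ∀ d : ℕ, (d : ℝ) ≤ X → d < 2 ^ K := by
    intro d hd
    have h2 : d ≤ ⌊X⌋₊ := Nat.le_floor hd
    exact lt_of_le_of_lt h2 (Nat.lt_pow_succ_log_self (by norm_num) _)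
  have hlt : ∀ {u : ℝ}, u ≤ 1 → X ^ u ≤ X := by
    intro u hu
    calc X ^ u ≤ X ^ (1 : ℝ) := Real.rpow_le_rpow_of_exponent_le hX1 hu
      _ = X := Real.rpow_one X
  have ha : ∀ a b, γ' a b ≠ 0 → a ∈ Icc 1 L ∧ b ∈ Icc 1 L ∧ a ∈ Ico 1 (2 ^ K) ∧
      b ∈ Ico 1 (2 ^ K) := by
    intro a b h
    obtain ⟨h2, h3, h4⟩ := hγ'0 a b h
    obtain ⟨h5, h6⟩ := hpos a b h2
    obtain ⟨-, -, h7, h8⟩ := hγs a b h2
    exact ⟨mem_Icc.2 ⟨h5, h3⟩, mem_Icc.2 ⟨h6, h4⟩,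
      mem_Ico.2 ⟨h5, hKX a (h7.trans (hlt (by norm_num)))⟩,
      mem_Ico.2 ⟨h6, hKX b (h8.trans (hlt (by norm_num)))⟩⟩
  have he : ∀ e, β' e ≠ 0 → e ∈ Icc 1 L ∧ e ∈ Ico 1 (2 ^ K) := by
    intro e h
    obtain ⟨h2, h3⟩ := hβ'0 e h
    obtain ⟨h4, -, h5⟩ := hβs e h2
    exact ⟨mem_Icc.2 ⟨h4, h3⟩, mem_Ico.2 ⟨h4, hKX e (h5.trans (hlt (by norm_num)))⟩⟩
  -- the sum is the sum of F over the dyadic range
  have hsum : ∑ d₁ ∈ Icc 1 L, ∑ d₂ ∈ Icc 1 L, ∑ e ∈ Icc 1 L,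
      (if e.Coprime (d₁ * d₂) then
        ((γ d₁ d₂ * β e : ℝ) : ℂ) * Fr (2 * X) (W * (d₁ * d₂) * e) (c d₁ d₂ e) else 0) =
      ∑ a ∈ Ico 1 (2 ^ K), ∑ b ∈ Ico 1 (2 ^ K), ∑ e ∈ Ico 1 (2 ^ K), F a b e := by
    have e1 : ∑ d₁ ∈ Icc 1 L, ∑ d₂ ∈ Icc 1 L, ∑ e ∈ Icc 1 L,
      (if e.Coprime (d₁ * d₂) then
        ((γ d₁ d₂ * β e : ℝ) : ℂ) * Fr (2 * X) (W * (d₁ * d₂) * e) (c d₁ d₂ e) else 0) =
        ∑ a ∈ Icc 1 L, ∑ b ∈ Icc 1 L, ∑ e ∈ Icc 1 L, F a b e := by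
      refine sum_congr rfl fun a haa => sum_congr rfl fun b hbb => sum_congr rfl fun e hee => ?_
      have h2 : γ' a b = γ a b := by
        simp only [hγ']
        rw [if_pos ⟨(mem_Icc.1 haa).2, (mem_Icc.1 hbb).2⟩]
      have h3 : β' e = β e := by
        simp only [hβ']
        rw [if_pos (mem_Icc.1 hee).2]
      simp only [hF, h2, h3]
    rw [e1]
    have z1 : ∀ (s : Finset ℕ) a b, γ' a b = 0 → ∑ e ∈ s, F a b e = 0 :=
      fun s a b h => sum_eq_zero fun e _ => hF0 a b e (Or.inl h)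
    have e3 : ∀ a b, ∑ e ∈ Icc 1 L, F a b e = ∑ e ∈ Ico 1 (2 ^ K), F a b e := by
      intro a b
      refine DYA_eq (fun e _ hn => ?_) (fun e _ hn => ?_)
      · refine hF0 a b e (Or.inr ?_)
        by_contra h
        exact hn (he e h).2
      · refine hF0 a b e (Or.inr ?_)
        by_contra h
        exact hn (he e h).1
    have e2 : ∀ a, ∑ b ∈ Icc 1 L, ∑ e ∈ Icc 1 L, F a b e =
        ∑ b ∈ Ico 1 (2 ^ K), ∑ e ∈ Ico 1 (2 ^ K), F a b e := by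
      intro a
      simp only [e3]
      refine DYA_eq (fun b _ hn => z1 _ a b ?_) (fun b _ hn => z1 _ a b ?_)
      · by_contra h
        exact hn (ha a b h).2.2.2
      · by_contra h
        exact hn (ha a b h).2.1
    simp only [e2]
    refine DYA_eq (fun a _ hn => ?_) (fun a _ hn => ?_)
    · refine sum_eq_zero fun b _ => z1 _ a b ?_
      by_contra h
      exact hn (ha a b h).2.2.1
    · refine sum_eq_zero fun b _ => z1 _ a b ?_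
      by_contra h
      exact hn (ha a b h).1
  rw [hsum, DYA_dy3]
  -- every block
  have hM0 : 0 ≤ 2 * Real.sqrt C * X ^ (0.9992 : ℝ) := by positivity
  have hblock : ∀ i j k : ℕ, ‖∑ a ∈ Ico (2 ^ i) (2 * 2 ^ i), ∑ b ∈ Ico (2 ^ j) (2 * 2 ^ j),
      ∑ e ∈ Ico (2 ^ k) (2 * 2 ^ k), F a b e‖ ≤ 2 * Real.sqrt C * X ^ (0.9992 : ℝ) := by
    intro i j k
    by_cases hex : ∃ a ∈ Ico (2 ^ i) (2 * 2 ^ i), ∃ b ∈ Ico (2 ^ j) (2 * 2 ^ j),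
        ∃ e ∈ Ico (2 ^ k) (2 * 2 ^ k), γ' a b ≠ 0 ∧ β' e ≠ 0
    · obtain ⟨a, haa, b, hbb, e, hee, hab, hbe⟩ := hex
      obtain ⟨h2, -, -⟩ := hγ'0 a b hab
      obtain ⟨h3, -⟩ := hβ'0 e hbe
      obtain ⟨-, -, h4, h5⟩ := hγs a b h2
      obtain ⟨-, -, h6⟩ := hβs e h3
      have hA : ((2 ^ i : ℕ) : ℝ) ≤ X ^ (0.4451 : ℝ) :=
        le_trans (by exact_mod_cast (mem_Ico.1 haa).1) h4
      have hB : ((2 ^ j : ℕ) : ℝ) ≤ X ^ (0.108 : ℝ) :=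
        le_trans (by exact_mod_cast (mem_Ico.1 hbb).1) h5
      have hE : ((2 ^ k : ℕ) : ℝ) ≤ X ^ (0.5531 : ℝ) :=
        le_trans (by exact_mod_cast (mem_Ico.1 hee).1) h6
      have hb := hblk X (2 * X) hX1 (by linarith) le_rfl p q hp hq hpq hpW hqW a₀ (2 ^ i) (2 ^ j)
        (2 ^ k) Nat.one_le_two_pow Nat.one_le_two_pow Nat.one_le_two_pow
        (hA.trans (hlt (by norm_num))) (hB.trans (hlt (by norm_num)))
        (hE.trans (hlt (by norm_num))) γ' β' c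
        (fun a b => by
          simp only [hγ']
          split_ifs
          · exact hγ a b
          · simp)
        (fun e => by
          simp only [hβ']
          split_ifs
          · exact hβ e
          · simp)
        (fun a b h => ⟨(hγs a b (hγ'0 a b h).1).1, (hγs a b (hγ'0 a b h).1).2.1⟩)
        (fun e h => (hβs e (hβ'0 e h).1).2.1)
        (fun a b e h => hCg a b e (hγ'0 a b h).1)
      have hpq4 : ((p : ℝ) * q) ^ 4 ≤ X ^ (0.0008 : ℝ) := by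
        calc ((p : ℝ) * q) ^ 4 ≤ (X ^ (0.0001 : ℝ) * X ^ (0.0001 : ℝ)) ^ 4 := by gcongr
          _ = X ^ (0.0008 : ℝ) := by
            rw [← Real.rpow_add hXp, ← Real.rpow_natCast, ← Real.rpow_mul hXp.le]
            norm_num
      exact DYA_num hX1 hC (by exact_mod_cast Nat.one_le_two_pow)
        (by exact_mod_cast Nat.one_le_two_pow) (by exact_mod_cast Nat.one_le_two_pow) hA hB hE
        (by positivity) hpq4 (norm_nonneg _) hb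
    · have h0 : ∑ a ∈ Ico (2 ^ i) (2 * 2 ^ i), ∑ b ∈ Ico (2 ^ j) (2 * 2 ^ j),
          ∑ e ∈ Ico (2 ^ k) (2 * 2 ^ k), F a b e = 0 := by
        refine sum_eq_zero fun a haa => sum_eq_zero fun b hbb => sum_eq_zero fun e hee => ?_
        refine hF0 a b e ?_
        by_contra h
        rw [not_or] at h
        exact hex ⟨a, haa, b, hbb, e, hee, h⟩
      rw [h0, norm_zero]
      exact hM0
  have hK3 : (K : ℝ) ≤ 2 * Real.log X + 2 := by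
    have h2 : (2 : ℝ) ^ (Nat.log 2 ⌊X⌋₊) ≤ X := by
      have h3 : 2 ^ (Nat.log 2 ⌊X⌋₊) ≤ ⌊X⌋₊ :=
        Nat.pow_log_le_self 2 (Nat.floor_pos.2 hX1).ne'
      calc (2 : ℝ) ^ (Nat.log 2 ⌊X⌋₊) = ((2 ^ (Nat.log 2 ⌊X⌋₊) : ℕ) : ℝ) := by push_cast; rfl
        _ ≤ (⌊X⌋₊ : ℝ) := by exact_mod_cast h3
        _ ≤ X := Nat.floor_le hXp.le
    have h4 := Real.log_le_log (by positivity) h2
    rw [Real.log_pow] at h4
    have h5 : (0.6931471803 : ℝ) < Real.log 2 := Real.log_two_gt_d9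
    have h6 : (Nat.log 2 ⌊X⌋₊ : ℝ) * (1 / 2) ≤ Nat.log 2 ⌊X⌋₊ * Real.log 2 :=
      mul_le_mul_of_nonneg_left (by linarith) (by positivity)
    rw [hK]
    push_cast
    linarith
  calc ‖∑ i ∈ range K, ∑ j ∈ range K, ∑ k ∈ range K, ∑ a ∈ Ico (2 ^ i) (2 * 2 ^ i),
        ∑ b ∈ Ico (2 ^ j) (2 * 2 ^ j), ∑ e ∈ Ico (2 ^ k) (2 * 2 ^ k), F a b e‖
      ≤ ∑ i ∈ range K, ∑ j ∈ range K, ∑ k ∈ range K, 2 * Real.sqrt C * X ^ (0.9992 : ℝ) := by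
        refine (norm_sum_le _ _).trans (sum_le_sum fun i _ => ?_)
        refine (norm_sum_le _ _).trans (sum_le_sum fun j _ => ?_)
        exact (norm_sum_le _ _).trans (sum_le_sum fun k _ => hblock i j k)
    _ = (K : ℝ) ^ 3 * (2 * Real.sqrt C) * X ^ (0.9992 : ℝ) := by
        simp only [sum_const, card_range, nsmul_eq_mul]
        ring
    _ ≤ (2 * Real.log X + 2) ^ 3 * (2 * Real.sqrt C) * X ^ (0.9992 : ℝ) := by
        gcongr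
    _ ≤ X ^ (0.0001 : ℝ) * X ^ (0.9992 : ℝ) :=
        mul_le_mul_of_nonneg_right (hX0 X (le_trans (le_max_left _ _) hX)) (by positivity)
    _ = X ^ (0.9993 : ℝ) := by
        rw [← Real.rpow_add hXp]; norm_num

end Pool.Agent.PT
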